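import Pool.Agent.W684.BR.Stm

/-!
# Project BR: eventually dominated branches embed
-/

set_option autoImplicit false

namespace Pool.Agent.W762.BR

open Pool.Agent.W684.BR

theorem pair_lt {a b a' b' : ℕ} (h' : a' ≤ b') (hb : b' < b) : Nat.pair a' b' < Nat.pair a b := by
  have h1 := Nat.pair_lt_max_add_one_sq a' b'
  have h2 := Nat.max_sq_add_min_le_pair a b
  rw [max_eq_right h'] at h1
  have h3 : (b' + 1) ^ 2 ≤ (max a b) ^ 2 := Nat.pow_le_pow_left (by omega) 2
  omega

theorem negSucc_lt (a b : ℕ) : Int.negSucc a < Int.negSucc b ↔ b < a := by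
  rw [Int.negSucc_eq, Int.negSucc_eq]
  omega

theorem ee_pair (a b : ℕ) : ee (Nat.pair a b) = Nat.unpair a := by
  unfold ee
  rw [Nat.unpair_pair]

section
variable (x : ℕ → ℕ) (K : ℕ)

/-- a bound for the codes of the bad pieces -/
def MM : ℕ := ∑ k ∈ Finset.range K, Nat.pair k (x k)

/-- the new places of the bad pieces -/
def cK (k : ℕ) : ℕ := Nat.pair (Nat.pair k (x k)) (MM x K + (K - k))

/-- a bound for the new places -/
def NNN : ℕ := ∑ k ∈ Finset.range K, cK x K k

/-- the map of the indices -/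
def psi : ℤ → ℤ
  | Int.ofNat k => if K ≤ k then Int.ofNat k else Int.negSucc (cK x K k)
  | Int.negSucc j => Int.negSucc (Nat.pair (Nat.unpair j).1 (NNN x K + j + 1))

theorem cK_anti {k k' : ℕ} (h : k < k') (h' : k' < K) : cK x K k' < cK x K k := by
  unfold cK
  refine pair_lt ?_ (by omega)
  have : Nat.pair k' (x k') ≤ MM x K :=
    Finset.single_le_sum (f := fun k => Nat.pair k (x k)) (fun _ _ => Nat.zero_le _)
      (Finset.mem_range.2 h')
  omega

theorem cK_lt {k : ℕ} (h : k < K) (j : ℕ) :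
    cK x K k < Nat.pair (Nat.unpair j).1 (NNN x K + j + 1) := by
  have h1 : cK x K k ≤ NNN x K :=
    Finset.single_le_sum (f := fun k => cK x K k) (fun _ _ => Nat.zero_le _)
      (Finset.mem_range.2 h)
  have h2 := Nat.right_le_pair (Nat.unpair j).1 (NNN x K + j + 1)
  omega

theorem psi_mono : StrictMono (psi x K) := by
  intro a b hab
  rcases a with k | j <;> rcases b with k' | j'
  · have h : k < k' := by
      have : (Int.ofNat k) < Int.ofNat k' := hab
      exact Int.ofNat_lt.1 this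
    show (if K ≤ k then Int.ofNat k else Int.negSucc (cK x K k)) <
      (if K ≤ k' then Int.ofNat k' else Int.negSucc (cK x K k'))
    by_cases h1 : K ≤ k
    · rw [if_pos h1, if_pos (by omega)]
      exact hab
    · rw [if_neg h1]
      by_cases h2 : K ≤ k'
      · rw [if_pos h2]
        exact Int.negSucc_lt_zero _ |>.trans_le (Int.natCast_nonneg _)
      · rw [if_neg h2, negSucc_lt]
        exact cK_anti x K h (by omega)
  · exfalso
    have h1 : (0 : ℤ) ≤ Int.ofNat k := Int.natCast_nonneg _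
    have h2 : Int.negSucc j' < 0 := Int.negSucc_lt_zero _
    exact absurd hab (not_lt.2 (h2.le.trans h1))
  · show Int.negSucc (Nat.pair (Nat.unpair j).1 (NNN x K + j + 1)) <
      (if K ≤ k' then Int.ofNat k' else Int.negSucc (cK x K k'))
    by_cases h2 : K ≤ k'
    · rw [if_pos h2]
      exact Int.negSucc_lt_zero _ |>.trans_le (Int.natCast_nonneg _)
    · rw [if_neg h2, negSucc_lt]
      exact cK_lt x K (by omega) j
  · have h : j' < j := (negSucc_lt _ _).1 hab
    show Int.negSucc (Nat.pair (Nat.unpair j).1 (NNN x K + j + 1)) <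
      Int.negSucc (Nat.pair (Nat.unpair j').1 (NNN x K + j' + 1))
    rw [negSucc_lt]
    refine pair_lt ?_ (by omega)
    have := Nat.unpair_left_le j'
    omega

theorem psi_sub (X : ℕ → ℕ → Set ℝ) (y : ℕ → ℕ) (h : ∀ k ≥ K, x k ≤ y k) (i : ℤ) :
    lab X x i ⊆ lab X y (psi x K i) := by
  rcases i with k | j
  · show D X k (x k) ⊆ lab X y (if K ≤ k then Int.ofNat k else Int.negSucc (cK x K k))
    by_cases h1 : K ≤ k
    · rw [if_pos h1]
      rintro r ⟨m, hm, hr⟩
      exact ⟨m, hm.trans (h k h1), hr⟩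
    · rw [if_neg h1]
      show D X k (x k) ⊆ D X (ee (cK x K k)).1 (ee (cK x K k)).2
      unfold cK
      rw [ee_pair, Nat.unpair_pair]
  · show D X (ee j).1 (ee j).2 ⊆ D X (ee (Nat.pair (Nat.unpair j).1 (NNN x K + j + 1))).1
      (ee (Nat.pair (Nat.unpair j).1 (NNN x K + j + 1))).2
    rw [ee_pair]
    exact subset_rfl

end

theorem emb : S_EMB := by
  rintro X x y ⟨K, hK⟩
  refine ⟨OrderEmbedding.ofStrictMono (fun p : ↥(L X x) =>
    (⟨toLex (psi x K (ofLex p.1).1, (ofLex p.1).2), psi_sub x K X y hK _ p.2⟩ : ↥(L X y))) ?_⟩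
  intro p q hpq
  have h : p.1 < q.1 := hpq
  show toLex (psi x K (ofLex p.1).1, (ofLex p.1).2) < toLex (psi x K (ofLex q.1).1, (ofLex q.1).2)
  rw [Prod.Lex.lt_iff] at h ⊢
  rcases h with h | ⟨h, h'⟩
  · exact Or.inl (psi_mono x K h)
  · right
    exact ⟨congrArg (psi x K) h, h'⟩

end Pool.Agent.W762.BR
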